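import Pool.Agent.H544Z.J8.Barrier
import Pool.Agent.H544Z.J8.Bridge

/-!
# A zero-free half-plane and the Jensen polynomials of the Riemann xi function

Write `ξ(1/2 + z) = ∑ γ(k) z ^ (2 k) / k!` and let `J^{d,n}(X) = ∑_{j ≤ d} (d choose j) γ(n + j) X ^ j`.
The polynomials `J^{d,n}` with `d ≤ exp (c n)`, `n` large, are hyperbolic for every `c < 8`.  Here: zeta
has a zero-free half-plane `Re s ≥ σ₀` with `σ₀ < 1` if and only if this holds for some `c > 8`.
-/

set_option autoImplicit false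

namespace Pool.Agent.Results.MP_5a4862_nt.AJensenBarrier

open Polynomial

/-- The Riemann xi function `s (s - 1) π^(-s/2) Γ(s/2) ζ(s) / 2`. -/
noncomputable def xi (s : ℂ) : ℂ := s * (s - 1) / 2 * completedRiemannZeta₀ s + 1 / 2

/-- `γ(k) = k! / (2k)! * ξ^(2k)(1/2)`, so that `ξ(1/2 + z) = ∑ γ(k) z ^ (2k) / k!`. -/
noncomputable def gamma (k : ℕ) : ℝ :=
  (k.factorial : ℝ) / ((2 * k).factorial : ℝ) * (iteratedDeriv (2 * k) xi (1 / 2)).re

/-- The Jensen polynomial of degree `d` and shift `n`. -/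
noncomputable def jensen (d n : ℕ) : ℝ[X] :=
  ∑ j ∈ Finset.range (d + 1), C ((d.choose j : ℝ) * gamma (n + j)) * X ^ j

/-- All complex roots are real. -/
def Hyperbolic (P : ℝ[X]) : Prop := ∀ z : ℂ, aeval z P = 0 → z.im = 0

/-- For all large `n`, the polynomial `J^{d,n}` is hyperbolic for all `d ≤ exp (c n)`. -/
def HypUpTo (c : ℝ) : Prop := ∃ N : ℕ, ∀ n : ℕ, N ≤ n → ∀ d : ℕ, (d : ℝ) ≤ Real.exp (c * n) →
  Hyperbolic (jensen d n)

theorem result :
    (∃ σ₀ : ℝ, 1 / 2 < σ₀ ∧ σ₀ < 1 ∧ ∀ s : ℂ, σ₀ ≤ s.re → riemannZeta s ≠ 0) ↔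
      ∃ c : ℝ, 8 < c ∧ HypUpTo c := by
  rw [Pool.Agent.H544Z.J8.barrier']
  refine exists_congr fun c => and_congr_right fun _ => exists_congr fun N => ?_
  exact forall_congr' fun n => forall_congr' fun _ => forall_congr' fun d => forall_congr' fun _ =>
    (Pool.Agent.H544Z.J8.bridge xi (fun _ => rfl) d n).symm

end Pool.Agent.Results.MP_5a4862_nt.AJensenBarrier
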