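import Pool.Agent.H803Z.QR.Final

set_option autoImplicit false

namespace Pool.Agent.Results.MP_5a4862_nt.ASelbergNoHalfPlane

open Pool.Agent.H520Z.Sel

/-- In every large real degree the Selberg class has a member without a zero-free half plane
`Re s ≥ σ₀`, `σ₀ < 1`. -/
theorem result : ∃ d₀ : ℝ, ∀ d : ℝ, d₀ ≤ d → ∃ (a : ℕ → ℂ) (F : ℂ → ℂ), Selberg a F d ∧
    ∀ σ₀ : ℝ, σ₀ < 1 → ∃ s : ℂ, σ₀ ≤ s.re ∧ AnalyticAt ℂ F s ∧ F s = 0 :=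
  Pool.Agent.H803Z.QR.no_halfplane

end Pool.Agent.Results.MP_5a4862_nt.ASelbergNoHalfPlane
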